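import Pool.Agent.Work.MP_ecc80d_co.Lower.Final

/-!
# The random Maker gets a clique of size `(5/6) ln N` against every adaptive Breaker
-/

namespace Pool.Agent.Work.MP_ecc80d_co_old.RandomMakerLower

open Filter Topology Pool.Agent.RandomMaker

/-- For every `ε > 0` there is `N₀` such that for all `N ≥ N₀` and all `q ≤ (5/6) ln N`, against
every (adaptive) Breaker strategy the random Maker's final graph contains a `K_q` with
probability at least `p_N(q) > 1 - ε`. -/
theorem result : ∀ ε : ℝ, 0 < ε → ∀ᶠ N : ℕ in atTop, ∀ q : ℕ,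
    (q : ℝ) ≤ 5 / 6 * Real.log N → 1 - ε < cliqueProb N q :=
  fun ε hε => Pool.Agent.RandomMakerLower.lower ε hε

end Pool.Agent.Work.MP_ecc80d_co_old.RandomMakerLower
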