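import Pool.Agent.Work.MP_ecc80d_co.Bound

/-!
# The random Maker gets no clique of size `2 ln N - ln ln N + 8`
-/

namespace Pool.Agent.Work.MP_ecc80d_co_old.RandomMakerUpper

open Filter Topology Pool.Agent.RandomMaker

/-- For all large `N` and every `q ≥ 2 ln N - ln ln N + 8`, the minimum over all Breaker
strategies of the probability that the random Maker's final graph contains a `K_q` is at most
`e ^ (-q)`. -/
theorem result : ∀ᶠ N : ℕ in atTop, ∀ q : ℕ,
    2 * Real.log N - Real.log (Real.log N) + 8 ≤ q → cliqueProb N q ≤ Real.exp (-(q : ℝ)) := by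
  have hlogtop : Tendsto (fun N : ℕ => Real.log (N : ℝ)) atTop atTop :=
    Real.tendsto_log_atTop.comp tendsto_natCast_atTop_atTop
  filter_upwards [hlogtop.eventually_ge_atTop 3] with N h3 q hq
  set x := Real.log (N : ℝ) with hx
  have hxpos : 0 < x := by linarith
  have hloglog : Real.log x ≤ x - 1 := Real.log_le_sub_one_of_pos hxpos
  have hqx : x + 9 ≤ q := by linarith
  have hQ3 : 3 ≤ q := by
    have : (3 : ℝ) ≤ q := by linarith
    exact_mod_cast this
  rcases le_or_gt q N with hqN | hqN
  · refine (cliqueProb_le N q hQ3 hqN).trans ?_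
    apply Real.exp_le_exp.mpr
    have hQpos : (0 : ℝ) < q := by linarith
    have hlogQ : Real.log x ≤ Real.log q := Real.log_le_log hxpos (by linarith)
    have hlog2 := Real.log_pos (show (1 : ℝ) < 2 by norm_num)
    have hbr : x - Real.log q / 2 - q / 2 + 3 - Real.log 2 / 2 ≤ -1 := by linarith
    have e4 := mul_le_mul_of_nonneg_left hbr hQpos.le
    linarith
  · refine le_trans (le_of_eq ?_) (Real.exp_pos _).le
    exact cliqueProb_eq_zero N q hqN

end Pool.Agent.Work.MP_ecc80d_co_old.RandomMakerUpper
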